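import Mathlib

namespace Pool.Agent.Results.MP_76953b_al.VirtCyclic
open Filter Topology Set

/-- The metric-functional boundary: pointwise limits of `b_x` along sequences going to infinity. -/
def bd {G : Type} [Group G] (d : G → G → ℤ) : Set (G → ℝ) :=
  {f | ∃ x : ℕ → G, Tendsto (fun n => d (x n) 1) atTop atTop ∧
    ∀ y, Tendsto (fun n => ((d (x n) y - d (x n) 1 : ℤ) : ℝ)) atTop (𝓝 (f y))}

theorem result {G : Type} [Group G] [Group.FG G] (d : G → G → ℤ)
    (h0 : ∀ x y, d x y = 0 ↔ x = y) (hs : ∀ x y, d x y = d y x)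
    (ht : ∀ x y z, d x z ≤ d x y + d y z) (hi : ∀ g x y, d (g * x) (g * y) = d x y)
    (hp : ∀ x r, {y | d x y ≤ r}.Finite) (hf : (bd d).Finite) :
    ∃ H : Subgroup G, IsCyclic H ∧ H.FiniteIndex := by
  classical
  cases finite_or_infinite G
  · exact ⟨⊥, inferInstance, inferInstance⟩
  let F := fun x => d x 1
  have e : ∀ x y, d x y = F (y⁻¹ * x) := fun x y => by simp only [F]; rw [← hi y⁻¹]; simp
  have F0 : ∀ x, 0 ≤ F x := fun x => by
    have := ht x 1 x; rw [(h0 x x).2 rfl, hs 1 x] at this; simp only [F]; omega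
  have Fl : ∀ x y, |F (y⁻¹ * x) - F x| ≤ F y := fun x y => by
    have := ht x y 1; have := ht x 1 y
    rw [← e, abs_le]; simp only [F, hs 1 y] at *; omega
  have Fp : ∀ r, {y | F y ≤ r}.Finite := fun r => by simpa only [F, hs _ 1] using hp 1 r
  have : Countable G := countable_univ_iff.1 ((countable_iUnion fun r : ℤ => (Fp r).countable).mono
    fun y _ => mem_iUnion.2 ⟨F y, le_refl (F y)⟩)
  let D : Set (G → ℤ) := {f | ∃ x : ℕ → G, Tendsto (fun n => F (x n)) atTop atTop ∧
    ∀ y, ∀ᶠ n in atTop, F (y⁻¹ * x n) - F (x n) = f y}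
  have Df : Finite D := Finite.subset (hf.preimage (f := fun (f : G → ℤ) y => (f y : ℝ))
    (Function.Injective.injOn fun f g h => funext fun y => by exact_mod_cast congrFun h y))
    fun f ⟨x, h1, h2⟩ => ⟨x, h1, fun y => tendsto_const_nhds.congr' ((h2 y).mono fun n hn => by
      simp only [← hn, e (x n) y, F])⟩
  let _ : MulAction G D :=
    { smul := fun g f => ⟨fun y => f.1 (g⁻¹ * y) - f.1 g⁻¹, by
        obtain ⟨x, h1, h2⟩ := f.2
        refine ⟨fun n => g * x n, tendsto_atTop_mono (fun n => ?_)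
          (tendsto_atTop_add_const_right _ (-F g⁻¹) h1), fun y => ?_⟩
        · have := Fl (x n) g⁻¹
          rw [inv_inv, abs_le] at this; dsimp only; omega
        · filter_upwards [h2 (g⁻¹ * y), h2 g⁻¹] with n a b
          simp only [← a, ← b, mul_inv_rev, inv_inv, mul_assoc]; ring⟩
      one_smul := fun f => Subtype.ext (funext fun y => by
        obtain ⟨x, -, h2⟩ := f.2
        obtain ⟨n, hn⟩ := (h2 1).exists
        change f.1 (1⁻¹ * y) - f.1 1⁻¹ = _
        simp [← hn])
      mul_smul := fun a b f => Subtype.ext (funext fun y => by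
        change f.1 _ - f.1 _ = f.1 _ - f.1 _ - (f.1 _ - f.1 _)
        simp [mul_assoc]) }
  let H := (MulAction.toPermHom G D).ker
  have ad : ∀ f : D, ∀ h : H, ∀ y, f.1 (h * y) = f.1 h + f.1 y := fun f h y => by
    have : f.1 (h.1⁻¹⁻¹ * y) - f.1 h.1⁻¹⁻¹ = f.1 y :=
      congrFun (congrArg Subtype.val (DFunLike.congr_fun (show _ = (1 : Equiv.Perm D) from
        (inv_mem h.2 : h.1⁻¹ ∈ H)) f)) y
    rw [inv_inv] at this; omega
  have f1 : ∀ f : D, f.1 1 = 0 := fun f => by simpa using ad f 1 1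
  obtain ⟨S, hS, Sf⟩ := Group.fg_iff.1 (inferInstance : Group.FG H)
  -- far away points look like boundary points
  obtain ⟨R, hR⟩ : ∃ R : ℕ, ∀ x, R ≤ F x → ∃ f : D, ∀ s ∈ S, ∀ t ∈ insert 1 S,
      F ((s⁻¹ * t : H)⁻¹ * x) - F x = f.1 (s⁻¹ * t : H) ∧ F ((t : G)⁻¹ * x) - F x = f.1 t := by
    by_contra! h
    choose x h1 h2 using h
    obtain ⟨f, -, φ, h3, h4⟩ := (isCompact_univ_pi fun y => isCompact_Icc (a := -F y)
      (b := F y)).tendsto_subseq (x := fun n y => F (y⁻¹ * x n) - F (x n))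
        fun n y _ => abs_le.1 (Fl _ _)
    have h5 : ∀ y, ∀ᶠ n in atTop, F (y⁻¹ * x (φ n)) - F (x (φ n)) = f y := fun y => by
      simpa using tendsto_pi_nhds.1 h4 y
    obtain ⟨n, hn⟩ := ((eventually_all_finite Sf).2 fun s _ =>
      (eventually_all_finite (Sf.insert 1)).2 fun t _ => (h5 (s⁻¹ * t : H)).and (h5 t)).exists
    obtain ⟨s, a, t, b, c⟩ := h2 (φ n) ⟨f, x ∘ φ, tendsto_atTop_mono (fun n => h1 (φ n))
      (tendsto_natCast_atTop_atTop.comp h3.tendsto_atTop), h5⟩
    exact c (hn s a t b).1 (hn s a t b).2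
  have ne : Nonempty D := by
    obtain ⟨x, hx⟩ := (Fp R).infinite_compl.nonempty
    exact ⟨(hR x (le_of_not_ge hx)).choose⟩
  choose! l hl using hR
  have ex : ∀ f g : D, (∀ s ∈ S, f.1 s = g.1 s) → ∀ h : H, f.1 h = g.1 h := fun f g h x => by
    have : x ∈ Subgroup.closure S := hS ▸ trivial
    induction this using Subgroup.closure_induction with
    | mem s hs => exact h s hs
    | one => simp [f1]
    | mul a b _ _ ha hb => simp [ad, ha, hb]
    | inv a _ ha =>
      have := ad f a⁻¹ a; have := ad g a⁻¹ a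
      simp only [Subgroup.coe_inv, inv_mul_cancel, f1] at *; omega
  let Ψ : H → (H → ℤ) × ℤ := fun x => (fun h => (l x).1 h, F x + (l x).1 x)
  have st : ∀ s ∈ S, {x | Ψ (s * x) ≠ Ψ x}.Finite := fun s a => by
    refine (((Fp R).preimage Subtype.val_injective.injOn).union (((Fp R).preimage
      Subtype.val_injective.injOn).preimage (mul_right_injective s).injOn)).subset fun x hx => ?_
    by_contra hc
    simp only [mem_union, mem_preimage, mem_ofPred_eq, not_or, not_le] at hc
    have h1 := hl _ hc.1.le s a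
    have h2 := hl _ hc.2.le s a
    have h3 := (h1 1 (by simp)).1
    have := ex (l (s * x : H)) (l x) fun t b => by
      have := (h1 t (.inr b)).1; have := (h2 t (.inr b)).2; have := ad (l x) s⁻¹ t
      simp only [Subgroup.coe_mul, Subgroup.coe_inv, mul_inv_rev, inv_inv, mul_assoc, mul_one] at *
      omega
    refine hx (Prod.ext (funext this) ?_)
    have h4 := ad (l x) s⁻¹ (s * x)
    simp only [Ψ, this]
    simp only [Subgroup.coe_mul, Subgroup.coe_inv, inv_inv, mul_one, inv_mul_cancel_left] at *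
    omega
  have s1 : ∀ g, {x | Ψ (g * x) ≠ Ψ x}.Finite := fun g => by
    have : g ∈ Subgroup.closure S := hS ▸ trivial
    induction this using Subgroup.closure_induction with
    | mem s hs => exact st s hs
    | one => simp
    | mul a b _ _ ha hb =>
      refine ((ha.preimage (mul_right_injective b).injOn).union hb).subset fun x hx => ?_
      by_contra hc
      simp only [mem_union, mem_preimage, mem_ofPred_eq, not_or, not_not] at hc
      exact hx (by rw [mul_assoc, hc.1, hc.2])
    | inv a _ ha =>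
      exact (ha.preimage (mul_right_injective a⁻¹).injOn).subset fun x hx => by
        simpa [eq_comm] using hx
  have s2 : (range Ψ).Finite := by
    refine (((Sf.biUnion fun s a => (st s a).union ((st s a).image (s * ·))).insert 1).image Ψ).subset ?_
    rintro _ ⟨g, rfl⟩
    have : g ∈ Subgroup.closure S := hS ▸ trivial
    induction this using Subgroup.closure_induction_left with
    | one => exact ⟨1, .inl rfl, rfl⟩
    | mul_left s a x _ ih =>
      by_cases h : Ψ (s * x) = Ψ x
      · rwa [h]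
      · exact ⟨_, .inr (mem_biUnion a (.inr ⟨x, h, rfl⟩)), rfl⟩
    | inv_mul_cancel s a x _ ih =>
      by_cases h : Ψ (s * (s⁻¹ * x)) = Ψ (s⁻¹ * x)
      · rwa [← h, mul_inv_cancel_left]
      · exact ⟨_, .inr (mem_biUnion a (.inl h)), rfl⟩
  have : Infinite H := not_finite_iff_infinite.1 fun _ =>
    not_finite_iff_infinite.2 ‹Infinite G› (Subgroup.finite_iff_finite_and_finiteIndex H |>.2
      ⟨inferInstance, inferInstance⟩)
  obtain ⟨x0, hC⟩ : ∃ x0, (Ψ ⁻¹' {Ψ x0}).Infinite := by
    by_contra! h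
    refine infinite_univ ((s2.biUnion (t := fun v => Ψ ⁻¹' {v}) ?_).subset fun x _ =>
      mem_biUnion (mem_range_self x) rfl)
    rintro _ ⟨x, rfl⟩; exact h x
  set C := Ψ ⁻¹' {Ψ x0}
  have c1 : ∀ x ∈ C, F x + (l x0).1 x = F x0 + (l x0).1 x0 := fun x hx => by
    have a : (l x).1 x = (l x0).1 x := congrFun (congrArg Prod.fst hx) x
    rw [← a]; exact congrArg Prod.snd hx
  obtain ⟨t, t0⟩ : ∃ t : H, 0 < (l x0).1 t := by
    by_contra! h
    refine hC (((Fp (F x0 + (l x0).1 x0)).preimage Subtype.val_injective.injOn).subset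
      fun x hx => ?_)
    have := c1 x hx; have := h x; have := h x⁻¹; have := ad (l x0) x⁻¹ x
    simp only [Subgroup.coe_inv, inv_mul_cancel, f1, mem_preimage, mem_ofPred_eq] at *; omega
  have c2 : ∀ x ∈ C, ∃ n : ℕ, Ψ (t * (t ^ n * x)) ≠ Ψ (t ^ n * x) := fun x hx => by
    by_contra! h
    have : ∀ n : ℕ, t ^ n * x ∈ C ∧ (l x0).1 x + n ≤ (l x0).1 (t ^ n * x : H) := fun n => by
      induction n with
      | zero => simpa using hx
      | succ n ih =>
        rw [pow_succ', mul_assoc]
        exact ⟨(h n).trans ih.1, by rw [Subgroup.coe_mul, ad, Nat.cast_succ]; omega⟩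
    obtain ⟨n, hn⟩ := exists_nat_gt (F x0 + (l x0).1 x0 - (l x0).1 x)
    have a := c1 _ (this n).1; have := (this n).2; have := F0 (t ^ n * x : H)
    omega
  have fi : (Subgroup.zpowers t).FiniteIndex := by
    by_contra hn
    rw [Subgroup.finiteIndex_iff_finite_quotient, not_finite_iff_infinite] at hn
    have := (s1 t).fintype
    let u := fun i : Option {x | Ψ (t * x) ≠ Ψ x} =>
      (Infinite.natEmbedding (H ⧸ Subgroup.zpowers t) (Encodable.encode (Fintype.equivFin _ i))).out
    obtain ⟨x, x1, x2⟩ := hC.exists_notMem_finite (finite_iUnion fun i => s1 (u i)⁻¹)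
    simp only [mem_iUnion, not_exists, mem_ofPred_eq, not_not] at x2
    choose n hn using fun i => c2 _ ((x2 i).trans x1)
    obtain ⟨i, j, h1, h2⟩ := Fintype.exists_ne_map_eq_of_card_lt
      (fun i => (⟨_, hn i⟩ : {x | Ψ (t * x) ≠ Ψ x}))
      (by rw [Fintype.card_option]; exact Nat.lt_succ_self _)
    have h3 : t ^ n i * (u i)⁻¹ = t ^ n j * (u j)⁻¹ := by simpa [← mul_assoc] using h2
    have h4 : (u i : H ⧸ Subgroup.zpowers t) = u j := QuotientGroup.eq.2 (by
      rw [eq_inv_mul_iff_mul_eq.2 h3, ← mul_assoc, inv_mul_cancel_right]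
      exact mul_mem (inv_mem (pow_mem (Subgroup.mem_zpowers t) _)) (pow_mem (Subgroup.mem_zpowers t) _))
    exact h1 (by simpa [u, Fin.val_inj] using h4)
  refine ⟨(Subgroup.zpowers t).map H.subtype, by rw [MonoidHom.map_zpowers]; infer_instance, ⟨?_⟩⟩
  rw [Subgroup.index_map_subtype]
  exact mul_ne_zero fi.1 Subgroup.FiniteIndex.index_ne_zero

end Pool.Agent.Results.MP_76953b_al.VirtCyclic
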